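import Pool.Agent.Helper81.AD2.Goals

set_option autoImplicit false

namespace Pool.Agent.Helper73.AD2.LIM

open Pool.Agent.Helper81.AD2 Filter

theorem ratio (hN : S_NUM) (a : ℕ → ℕ) (h1 : ∀ d, d.factorial ≤ a d) (h2 : ∀ d, a d ≤ bd d)
    (d : ℕ) : 1 ≤ (a d : ℝ) / d.factorial ∧
      (a d : ℝ) / d.factorial ≤ Real.exp (2 * Real.sqrt d) := by
  have hf : (0 : ℝ) < d.factorial := by exact_mod_cast Nat.factorial_pos d
  constructor
  · rw [le_div_iff₀ hf, one_mul]
    exact_mod_cast h1 d
  · rw [div_le_iff₀ hf, mul_comm]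
    refine le_trans ?_ (hN d)
    exact_mod_cast h2 d

theorem t (hN : S_NUM) : S_LIM := by
  intro a h1 h2
  constructor
  · have hup : Tendsto (fun d : ℕ => Real.exp (2 * Real.sqrt d * (1 / (d : ℝ)))) atTop
        (nhds 1) := by
      have h0 : Tendsto (fun d : ℕ => 2 * Real.sqrt d * (1 / (d : ℝ))) atTop (nhds 0) := by
        have h3 : (fun d : ℕ => 2 * Real.sqrt d * (1 / (d : ℝ))) =
            fun d : ℕ => 2 * (Real.sqrt (d : ℝ))⁻¹ := by
          funext d
          rcases Nat.eq_zero_or_pos d with h | h
          · subst h; simp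
          · have hd : (0 : ℝ) < d := by exact_mod_cast h
            have hs : 0 < Real.sqrt d := Real.sqrt_pos.2 hd
            have hss : Real.sqrt d * Real.sqrt d = d := Real.mul_self_sqrt hd.le
            rw [mul_assoc]
            congr 1
            field_simp
            nlinarith [hss]
        rw [h3]
        have h4 : Tendsto (fun d : ℕ => (Real.sqrt (d : ℝ))⁻¹) atTop (nhds 0) :=
          (Real.tendsto_sqrt_atTop.comp tendsto_natCast_atTop_atTop).inv_tendsto_atTop
        simpa using h4.const_mul 2
      have := (Real.continuous_exp.tendsto 0).comp h0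
      rw [Real.exp_zero] at this
      exact this
    refine tendsto_of_tendsto_of_tendsto_of_le_of_le tendsto_const_nhds hup ?_ ?_
    · intro d
      exact Real.one_le_rpow (ratio hN a h1 h2 d).1 (by positivity)
    · intro d
      have h5 := ratio hN a h1 h2 d
      show ((a d : ℝ) / d.factorial) ^ ((1 : ℝ) / d) ≤ Real.exp (2 * Real.sqrt d * (1 / (d : ℝ)))
      rw [Real.exp_mul]
      exact Real.rpow_le_rpow (by linarith [h5.1]) h5.2 (by positivity)
  · intro d
    have h5 := ratio hN a h1 h2 d
    have hf : (0 : ℝ) < d.factorial := by exact_mod_cast Nat.factorial_pos d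
    have ha : (0 : ℝ) < a d := by
      have : 0 < a d := lt_of_lt_of_le (Nat.factorial_pos d) (h1 d)
      exact_mod_cast this
    rw [← Real.log_div ha.ne' hf.ne']
    rw [abs_of_nonneg (Real.log_nonneg h5.1)]
    rw [Real.log_le_iff_le_exp (by positivity)]
    exact h5.2

end Pool.Agent.Helper73.AD2.LIM
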